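import Pool.Agent.Helper72.MK.Goals

/-!
# Packet MK-MIX: first variation of the volume by a parallelogram
-/

open MeasureTheory Set Filter Topology
open scoped ENNReal Pointwise
open Pool.Agent.Helper47.AQ Pool.Agent.Helper72.MK

noncomputable section

namespace Pool.Agent.Helper10.MK

/-- The sum with a segment. -/
def sg (K : Set (Fin 3 → ℝ)) (i : Fin 3) (t : ℝ) : Set (Fin 3 → ℝ) :=
  {x : Fin 3 → ℝ | ∃ y ∈ K, ∃ s ∈ Icc (0 : ℝ) t, x = y + Pi.single i s}

theorem sg_eq (K : Set (Fin 3 → ℝ)) (i : Fin 3) (t : ℝ) :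
    sg K i t = (fun q : (Fin 3 → ℝ) × ℝ => q.1 + q.2 • (Pi.single i (1 : ℝ) : Fin 3 → ℝ)) ''
      (K ×ˢ Icc (0 : ℝ) t) := by
  ext x
  constructor
  · rintro ⟨y, hy, s, hs, rfl⟩
    refine ⟨(y, s), ⟨hy, hs⟩, ?_⟩
    show y + s • (Pi.single i (1 : ℝ) : Fin 3 → ℝ) = y + Pi.single i s
    rw [← Pi.single_smul, smul_eq_mul, mul_one]
  · rintro ⟨⟨y, s⟩, ⟨hy, hs⟩, rfl⟩
    refine ⟨y, hy, s, hs, ?_⟩
    show y + s • (Pi.single i (1 : ℝ) : Fin 3 → ℝ) = y + Pi.single i s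
    rw [← Pi.single_smul, smul_eq_mul, mul_one]

theorem sg_compact {K : Set (Fin 3 → ℝ)} (h : IsCompact K) (i : Fin 3) (t : ℝ) :
    IsCompact (sg K i t) := by
  rw [sg_eq]
  refine (h.prod isCompact_Icc).image ?_
  fun_prop

theorem sg_convex {K : Set (Fin 3 → ℝ)} (h : Convex ℝ K) (i : Fin 3) (t : ℝ) :
    Convex ℝ (sg K i t) := by
  rw [sg_eq]
  have hc : Convex ℝ (K ×ˢ Icc (0 : ℝ) t) := h.prod (convex_Icc _ _)
  have := hc.linear_image (LinearMap.fst ℝ (Fin 3 → ℝ) ℝ +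
    (LinearMap.snd ℝ (Fin 3 → ℝ) ℝ).smulRight (Pi.single i (1 : ℝ) : Fin 3 → ℝ))
  exact this

theorem sg_sub {K : Set (Fin 3 → ℝ)} (i : Fin 3) {t : ℝ} (ht : 0 ≤ t) : K ⊆ sg K i t := by
  intro x hx
  exact ⟨x, hx, 0, ⟨le_refl _, ht⟩, by simp⟩

/-- The parallelogram is contained in `K`. -/
theorem par_mem {K : Set (Fin 3 → ℝ)} (hK : Convex ℝ K) {a b : ℝ} {c : Fin 3 → ℝ} (ha : 0 ≤ a)
    (hb : 0 ≤ b) (h0 : c ∈ K) (h1 : c + Pi.single 0 a ∈ K) (h2 : c + Pi.single 1 b ∈ K)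
    (h3 : c + Pi.single 0 a + Pi.single 1 b ∈ K) {s t : ℝ} (hs : s ∈ Icc (0 : ℝ) a)
    (ht : t ∈ Icc (0 : ℝ) b) : c + Pi.single 0 s + Pi.single 1 t ∈ K := by
  -- parameters
  have key : ∀ (x : Fin 3 → ℝ) (i : Fin 3) (r u : ℝ), 0 ≤ r → u ∈ Icc (0 : ℝ) r → x ∈ K →
      x + Pi.single i r ∈ K → x + Pi.single i u ∈ K := by
    intro x i r u hr hu hx hx2
    rcases hr.eq_or_lt with h | h
    · have : u = 0 := le_antisymm (h ▸ hu.2) hu.1
      rw [this]
      simpa using hx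
    · have h4 := hK hx hx2 (a := 1 - u / r) (b := u / r)
        (by rw [sub_nonneg, div_le_one h]; exact hu.2) (div_nonneg hu.1 hr) (by ring)
      have h5 : (1 - u / r) • x + (u / r) • (x + (Pi.single i r : Fin 3 → ℝ)) =
          x + Pi.single i u := by
        have h6 : (u / r) • (Pi.single i r : Fin 3 → ℝ) = Pi.single i u := by
          rw [← Pi.single_smul, smul_eq_mul, div_mul_cancel₀ _ h.ne']
        rw [smul_add, h6, ← add_assoc, ← add_smul]
        simp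
      rw [← h5]
      exact h4
  have h4 : c + Pi.single 0 s ∈ K := key c 0 a s ha hs h0 h1
  have h5 : c + Pi.single 1 b + Pi.single 0 s ∈ K := by
    refine key _ 0 a s ha hs h2 ?_
    rw [add_right_comm]
    exact h3
  refine key _ 1 b t hb ht h4 ?_
  rw [add_right_comm]
  exact h5

theorem two_sub {K : Set (Fin 3 → ℝ)} (hK : Convex ℝ K) {a b e : ℝ} {c : Fin 3 → ℝ} (ha : 0 ≤ a)
    (hb : 0 ≤ b) (he : 0 < e) (h0 : c ∈ K) (h1 : c + Pi.single 0 a ∈ K)
    (h2 : c + Pi.single 1 b ∈ K) (h3 : c + Pi.single 0 a + Pi.single 1 b ∈ K) :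
    sg (sg K 0 (e * a)) 1 (e * b) ⊆
      (fun x => x + (-(e • c))) '' ((1 + e) • K) := by
  rintro x ⟨y', ⟨y, hy, s, hs, rfl⟩, t, ht, rfl⟩
  have hz : c + Pi.single 0 (s / e) + Pi.single 1 (t / e) ∈ K := by
    refine par_mem hK ha hb h0 h1 h2 h3 ⟨div_nonneg hs.1 he.le, ?_⟩ ⟨div_nonneg ht.1 he.le, ?_⟩
    · rw [div_le_iff₀ he, mul_comm]
      exact hs.2
    · rw [div_le_iff₀ he, mul_comm]
      exact ht.2
  have he1 : (0 : ℝ) < 1 + e := by linarith
  have hw := hK hy hz (a := 1 / (1 + e)) (b := e / (1 + e)) (by positivity) (by positivity)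
    (by field_simp)
  refine ⟨_, Set.smul_mem_smul_set hw, ?_⟩
  have hs1 : e • (Pi.single 0 (s / e) : Fin 3 → ℝ) = Pi.single 0 s := by
    rw [← Pi.single_smul, smul_eq_mul, mul_div_cancel₀ _ he.ne']
  have ht1 : e • (Pi.single 1 (t / e) : Fin 3 → ℝ) = Pi.single 1 t := by
    rw [← Pi.single_smul, smul_eq_mul, mul_div_cancel₀ _ he.ne']
  show (1 + e) • ((1 / (1 + e)) • y + (e / (1 + e)) • (c + Pi.single 0 (s / e) +
    Pi.single 1 (t / e))) + -(e • c) = y + Pi.single 0 s + Pi.single 1 t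
  rw [smul_add, smul_smul, smul_smul, mul_one_div_cancel he1.ne', one_smul,
    mul_div_cancel₀ _ he1.ne', smul_add, smul_add, hs1, ht1]
  abel

theorem mix (hSEG : SEGStmt) : MIXStmt := by
  intro K hB a b c ha hb h0 h1 h2 h3
  have hKc : Convex ℝ K := hB.conv
  have hKk : IsCompact K := hB.comp
  set V := (volume K).toReal with hV
  have hVtop : volume K ≠ ⊤ := hKk.measure_lt_top.ne
  have hpr : ∀ (i : Fin 3) (M : Set (Fin 3 → ℝ)), IsCompact M → volume (pr i M) ≠ ⊤ := by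
    intro i M hM
    have : IsCompact (pr i M) := hM.image (by fun_prop)
    exact this.measure_lt_top.ne
  have main : ∀ e : ℝ, 0 < e → a * (volume (pr 0 K)).toReal + b * (volume (pr 1 K)).toReal ≤
      (3 + 3 * e + e ^ 2) * V := by
    intro e he
    have hea : 0 ≤ e * a := mul_nonneg he.le ha
    have heb : 0 ≤ e * b := mul_nonneg he.le hb
    have s1 := hSEG K 0 hKc hKk (e * a) hea
    have s2 := hSEG (sg K 0 (e * a)) 1 (sg_convex hKc _ _) (sg_compact hKk _ _) (e * b) heb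
    have s1' : volume K + ENNReal.ofReal (e * a) * volume (pr 0 K) ≤
      volume (sg K 0 (e * a)) := s1
    have s2' : volume (sg K 0 (e * a)) + ENNReal.ofReal (e * b) * volume (pr 1 (sg K 0 (e * a))) ≤
      volume (sg (sg K 0 (e * a)) 1 (e * b)) := s2
    have s3 : volume (pr 1 K) ≤ volume (pr 1 (sg K 0 (e * a))) :=
      measure_mono (image_mono (sg_sub 0 hea))
    have s4 : volume (sg (sg K 0 (e * a)) 1 (e * b)) ≤ ENNReal.ofReal ((1 + e) ^ 3) * volume K := by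
      refine (measure_mono (two_sub hKc ha hb he h0 h1 h2 h3)).trans ?_
      rw [Set.image_add_right, measure_preimage_add_right, Measure.addHaar_smul]
      have : Module.finrank ℝ (Fin 3 → ℝ) = 3 := by simp
      rw [this, abs_of_nonneg (by positivity)]
    have s5 : volume K + ENNReal.ofReal (e * a) * volume (pr 0 K) +
        ENNReal.ofReal (e * b) * volume (pr 1 K) ≤ ENNReal.ofReal ((1 + e) ^ 3) * volume K := by
      calc _ ≤ volume (sg K 0 (e * a)) +
            ENNReal.ofReal (e * b) * volume (pr 1 (sg K 0 (e * a))) := by gcongr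
        _ ≤ _ := s2'.trans s4
    have s6 : V + (e * a) * (volume (pr 0 K)).toReal + (e * b) * (volume (pr 1 K)).toReal ≤
        (1 + e) ^ 3 * V := by
      have h5 := ENNReal.toReal_mono (ENNReal.mul_ne_top ENNReal.ofReal_ne_top hVtop) s5
      have t0 : ENNReal.ofReal (e * a) * volume (pr 0 K) ≠ ⊤ :=
        ENNReal.mul_ne_top ENNReal.ofReal_ne_top (hpr 0 K hKk)
      have t1 : ENNReal.ofReal (e * b) * volume (pr 1 K) ≠ ⊤ :=
        ENNReal.mul_ne_top ENNReal.ofReal_ne_top (hpr 1 K hKk)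
      rw [ENNReal.toReal_add (ENNReal.add_ne_top.2 ⟨hVtop, t0⟩) t1,
        ENNReal.toReal_add hVtop t0, ENNReal.toReal_mul, ENNReal.toReal_mul, ENNReal.toReal_mul,
        ENNReal.toReal_ofReal hea, ENNReal.toReal_ofReal heb,
        ENNReal.toReal_ofReal (by positivity)] at h5
      exact h5
    have s7 : e * (a * (volume (pr 0 K)).toReal + b * (volume (pr 1 K)).toReal) ≤
        e * ((3 + 3 * e + e ^ 2) * V) := by
      nlinarith [s6]
    exact le_of_mul_le_mul_left s7 he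
  have lim : Tendsto (fun e : ℝ => (3 + 3 * e + e ^ 2) * V) (𝓝[>] 0)
      (𝓝 ((3 + 3 * 0 + 0 ^ 2) * V)) := by
    refine Tendsto.mono_left ?_ nhdsWithin_le_nhds
    exact Continuous.tendsto (by fun_prop) _
  have := ge_of_tendsto lim (eventually_nhdsWithin_of_forall fun e he => main e he)
  simpa using this

end Pool.Agent.Helper10.MK
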